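import Pool.Agent.Helper93.TP.Defs2

/-!
# TP-4a: multiplicity three at a point (helper16)
-/

set_option autoImplicit false

namespace Pool.Agent.Helper93.TP

open MvPolynomial Module

/-- scaling the arguments of a homogeneous polynomial -/
theorem aeval_scale {σ R : Type*} [CommRing R] [Algebra ℂ R] {e : ℕ} {f : MvPolynomial σ ℂ}
    (hf : f.IsHomogeneous e) (r : R) (g : σ → R) :
    aeval (fun j => r * g j) f = r ^ e * aeval g f := by
  rw [f.as_sum, map_sum, map_sum, Finset.mul_sum]
  refine Finset.sum_congr rfl fun κ hκ => ?_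
  rw [aeval_monomial, aeval_monomial]
  have h2 : κ.degree = e := by
    have := hf (mem_support_iff.1 hκ)
    rw [Finsupp.degree_eq_weight_one]
    exact this
  have h3 : (κ.prod fun i k => (r * g i) ^ k) = r ^ e * κ.prod fun i k => g i ^ k := by
    unfold Finsupp.prod
    simp only [mul_pow, Finset.prod_mul_distrib]
    rw [Finset.prod_pow_eq_pow_sum, ← h2]
    rfl
  rw [h3]
  ring

theorem pderiv_isHomogeneous {σ : Type*} {e : ℕ} {f : MvPolynomial σ ℂ}
    (hf : f.IsHomogeneous e) (i : σ) : (pderiv i f).IsHomogeneous (e - 1) := by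
  classical
  rw [f.as_sum, map_sum]
  apply IsHomogeneous.sum
  intro κ hκ
  rw [pderiv_monomial]
  have h2 : κ.degree = e := by
    have := hf (mem_support_iff.1 hκ)
    rw [Finsupp.degree_eq_weight_one]
    exact this
  by_cases h : κ i = 0
  · rw [h]
    simp only [Nat.cast_zero, mul_zero, map_zero]
    exact isHomogeneous_zero _ _ _
  · apply isHomogeneous_monomial
    have h3 : Finsupp.single i 1 ≤ κ := by
      rw [Finsupp.single_le_iff]
      omega
    have h4 : (κ - Finsupp.single i 1) + Finsupp.single i 1 = κ := tsub_add_cancel_of_le h3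
    have h5 := congrArg Finsupp.degree h4
    rw [map_add, Finsupp.degree_single] at h5
    omega

theorem aeval_C_eq {m : ℕ} (P : Fin m → ℂ) (g : MvPolynomial (Fin m) ℂ) :
    aeval (fun j => (C (P j) : MvPolynomial (Fin m) ℂ)) g = C (eval P g) := by
  induction g using MvPolynomial.induction_on with
  | C a => rw [aeval_C, eval_C, algebraMap_eq]
  | add p q hp hq => rw [map_add, map_add, map_add, hp, hq]
  | mul_X p l hp => rw [map_mul, map_mul, map_mul, hp, aeval_X, eval_X]

section Taylor
variable {m : ℕ} (c : Fin m → ℂ) (k : Fin m)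

/-- the linear forms -/
noncomputable def tL (j : Fin m) : MvPolynomial (Fin m) ℂ := X j - C (c j) * X k

/-- the substitution -/
noncomputable def tS : MvPolynomial (Fin m) ℂ →ₐ[ℂ] MvPolynomial (Fin m) ℂ :=
  aeval fun j => C (c j) * X k

/-- the Taylor polynomial of order two -/
noncomputable def tT (f : MvPolynomial (Fin m) ℂ) : MvPolynomial (Fin m) ℂ :=
  tS c k f + (∑ i, tS c k (pderiv i f) * tL c k i) +
    C (1 / 2) * ∑ i, ∑ j, tS c k (pderiv i (pderiv j f)) * (tL c k i * tL c k j)

theorem tT_add (f g : MvPolynomial (Fin m) ℂ) : tT c k (f + g) = tT c k f + tT c k g := by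
  unfold tT
  simp only [map_add, add_mul, Finset.sum_add_distrib, mul_add]
  ring

theorem tT_C (a : ℂ) : tT c k (C a) = C a := by
  unfold tT
  simp only [pderiv_C, map_zero, zero_mul, Finset.sum_const_zero, mul_zero, add_zero]
  exact (tS c k).commutes a

theorem tT_mul_X (p : MvPolynomial (Fin m) ℂ) (l : Fin m) :
    tT c k (p * X l) = tT c k p * (C (c l) * X k) + tS c k p * tL c k l +
      ∑ i, tS c k (pderiv i p) * (tL c k i * tL c k l) := by
  classical
  have hX : tS c k (X l) = C (c l) * X k := aeval_X _ _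
  have hδ : ∀ i : Fin m, pderiv i (X l : MvPolynomial (Fin m) ℂ) = if i = l then 1 else 0 := by
    intro i
    rw [pderiv_X, Pi.single_apply]
    simp only [eq_comm]
  have hδ' : ∀ i j : Fin m, pderiv j (if i = l then (1 : MvPolynomial (Fin m) ℂ) else 0) = 0 := by
    intro i j
    split_ifs
    · exact pderiv_one
    · exact map_zero _
  have hS : ∀ i : Fin m, tS c k (if i = l then 1 else 0) = if i = l then 1 else 0 := by
    intro i
    split_ifs
    · exact map_one _
    · exact map_zero _
  have h1 : ∀ i, tS c k (pderiv i (p * X l)) = tS c k (pderiv i p) * (C (c l) * X k) +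
      tS c k p * (if i = l then 1 else 0) := by
    intro i
    rw [pderiv_mul, map_add, map_mul, map_mul, hX, hδ, hS]
  have h2 : ∀ i j, tS c k (pderiv i (pderiv j (p * X l))) =
      tS c k (pderiv i (pderiv j p)) * (C (c l) * X k) +
      tS c k (pderiv j p) * (if i = l then 1 else 0) +
      tS c k (pderiv i p) * (if j = l then 1 else 0) := by
    intro i j
    rw [pderiv_mul, map_add, pderiv_mul, hδ, hδ, pderiv_mul, hδ', mul_zero, add_zero, map_add,
      map_add, map_mul, map_mul, map_mul, hX, hS, hS]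
  unfold tT
  simp only [h1, h2, add_mul, Finset.sum_add_distrib]
  rw [map_mul, hX]
  have e1 : ∑ i, tS c k p * (if i = l then 1 else 0) * tL c k i = tS c k p * tL c k l := by
    rw [Finset.sum_eq_single l]
    · rw [if_pos rfl, mul_one]
    · intro i _ hi
      rw [if_neg hi, mul_zero, zero_mul]
    · intro h
      exact absurd (Finset.mem_univ l) h
  have e2 : ∑ i, ∑ j, tS c k (pderiv j p) * (if i = l then 1 else 0) * (tL c k i * tL c k j) =
      ∑ i, tS c k (pderiv i p) * (tL c k i * tL c k l) := by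
    rw [Finset.sum_eq_single l]
    · refine Finset.sum_congr rfl fun j _ => ?_
      rw [if_pos rfl]
      ring
    · intro i _ hi
      refine Finset.sum_eq_zero fun j _ => ?_
      rw [if_neg hi, mul_zero, zero_mul]
    · intro h
      exact absurd (Finset.mem_univ l) h
  have e3 : ∑ i, ∑ j, tS c k (pderiv i p) * (if j = l then 1 else 0) * (tL c k i * tL c k j) =
      ∑ i, tS c k (pderiv i p) * (tL c k i * tL c k l) := by
    refine Finset.sum_congr rfl fun i _ => ?_
    rw [Finset.sum_eq_single l]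
    · rw [if_pos rfl]
      ring
    · intro j _ hj
      rw [if_neg hj, mul_zero, zero_mul]
    · intro h
      exact absurd (Finset.mem_univ l) h
  have e4 : ∑ i, tS c k (pderiv i p) * (C (c l) * X k) * tL c k i =
      (∑ i, tS c k (pderiv i p) * tL c k i) * (C (c l) * X k) := by
    rw [Finset.sum_mul]
    refine Finset.sum_congr rfl fun i _ => ?_
    ring
  have e5 : ∑ i, ∑ j, tS c k (pderiv i (pderiv j p)) * (C (c l) * X k) * (tL c k i * tL c k j) =
      (∑ i, ∑ j, tS c k (pderiv i (pderiv j p)) * (tL c k i * tL c k j)) * (C (c l) * X k) := by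
    rw [Finset.sum_mul]
    refine Finset.sum_congr rfl fun i _ => ?_
    rw [Finset.sum_mul]
    refine Finset.sum_congr rfl fun j _ => ?_
    ring
  rw [e1, e2, e3, e4, e5]
  have hC : (C (1 / 2) : MvPolynomial (Fin m) ℂ) * 2 = 1 := by
    rw [← map_ofNat (C : ℂ →+* MvPolynomial (Fin m) ℂ) 2, ← map_mul]
    norm_num
  linear_combination (∑ i, tS c k (pderiv i p) * (tL c k i * tL c k l)) * hC

/-- Taylor expansion modulo the cube of the ideal -/
theorem taylor_mem (f : MvPolynomial (Fin m) ℂ) :
    f - tT c k f ∈ (Ideal.span (Set.range (tL c k))) ^ 3 := by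
  set M := Ideal.span (Set.range (tL c k)) with hM
  have hL : ∀ j, tL c k j ∈ M := fun j => Ideal.subset_span ⟨j, rfl⟩
  induction f using MvPolynomial.induction_on with
  | C a => rw [tT_C, sub_self]; exact Ideal.zero_mem _
  | add p q hp hq =>
    rw [tT_add]
    have : p + q - (tT c k p + tT c k q) = (p - tT c k p) + (q - tT c k q) := by ring
    rw [this]
    exact Ideal.add_mem _ hp hq
  | mul_X p l hp =>
    have hX : (X l : MvPolynomial (Fin m) ℂ) = C (c l) * X k + tL c k l := by
      unfold tL; ring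
    have key : p * X l - tT c k (p * X l) = (p - tT c k p) * X l +
        C (1 / 2) * ∑ i, ∑ j, tS c k (pderiv i (pderiv j p)) * (tL c k i * tL c k j * tL c k l) := by
      rw [tT_mul_X]
      have e1 : ∑ i, ∑ j, tS c k (pderiv i (pderiv j p)) * (tL c k i * tL c k j * tL c k l) =
          (∑ i, ∑ j, tS c k (pderiv i (pderiv j p)) * (tL c k i * tL c k j)) * tL c k l := by
        rw [Finset.sum_mul]
        refine Finset.sum_congr rfl fun i _ => ?_
        rw [Finset.sum_mul]
        refine Finset.sum_congr rfl fun j _ => ?_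
        ring
      have e2 : ∑ i, tS c k (pderiv i p) * (tL c k i * tL c k l) =
          (∑ i, tS c k (pderiv i p) * tL c k i) * tL c k l := by
        rw [Finset.sum_mul]
        refine Finset.sum_congr rfl fun i _ => ?_
        ring
      rw [e1, e2, hX]
      unfold tT
      ring
    rw [key]
    refine Ideal.add_mem _ (Ideal.mul_mem_right _ _ hp) (Ideal.mul_mem_left _ _ ?_)
    refine Ideal.sum_mem _ fun i _ => Ideal.sum_mem _ fun j _ => Ideal.mul_mem_left _ _ ?_
    rw [pow_succ, pow_succ, pow_one]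
    exact Ideal.mul_mem_mul (Ideal.mul_mem_mul (hL i) (hL j)) (hL l)

end Taylor

theorem tS_zero {m : ℕ} (P : Fin m → ℂ) (k : Fin m) {g : MvPolynomial (Fin m) ℂ} {e : ℕ}
    (hg : g.IsHomogeneous e) (h0 : eval P g = 0) : tS (fun j => P j / P k) k g = 0 := by
  have h1 : (fun j => C (P j / P k) * X k : Fin m → MvPolynomial (Fin m) ℂ) =
      fun j => (C (P k)⁻¹ * X k) * C (P j) := by
    funext j
    rw [div_eq_mul_inv, map_mul]
    ring
  have h2 := aeval_scale hg (C (P k)⁻¹ * X k : MvPolynomial (Fin m) ℂ) (fun j => C (P j))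
  show aeval (fun j => C (P j / P k) * X k : Fin m → MvPolynomial (Fin m) ℂ) g = 0
  rw [h1, h2, aeval_C_eq, h0, map_zero, mul_zero]

section
variable {n : ℕ} (P : Fin (n + 1) → ℂ)

/-- multiplicity at least two -/
def mult2 : Ideal (MvPolynomial (Fin (n + 1)) ℂ) where
  carrier := {f | eval P f = 0 ∧ ∀ i, eval P (pderiv i f) = 0}
  add_mem' := by
    rintro a b ⟨ha, ha'⟩ ⟨hb, hb'⟩
    refine ⟨by rw [map_add, ha, hb, add_zero], fun i => ?_⟩
    rw [map_add, map_add, ha', hb', add_zero]
  zero_mem' := ⟨map_zero _, fun i => by rw [map_zero, map_zero]⟩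
  smul_mem' := by
    rintro c f ⟨hf, hf'⟩
    refine ⟨by rw [smul_eq_mul, map_mul, hf, mul_zero], fun i => ?_⟩
    rw [smul_eq_mul, pderiv_mul, map_add, map_mul, map_mul, hf, hf', mul_zero, mul_zero, add_zero]

/-- multiplicity at least three -/
def mult3 : Ideal (MvPolynomial (Fin (n + 1)) ℂ) where
  carrier := {f | (eval P f = 0 ∧ ∀ i, eval P (pderiv i f) = 0) ∧
    ∀ i j, eval P (pderiv i (pderiv j f)) = 0}
  add_mem' := by
    rintro a b ⟨⟨ha, ha'⟩, ha''⟩ ⟨⟨hb, hb'⟩, hb''⟩
    refine ⟨⟨by rw [map_add, ha, hb, add_zero], fun i => ?_⟩, fun i j => ?_⟩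
    · rw [map_add, map_add, ha', hb', add_zero]
    · rw [map_add, map_add, map_add, ha'', hb'', add_zero]
  zero_mem' := ⟨⟨map_zero _, fun i => by rw [map_zero, map_zero]⟩,
    fun i j => by rw [map_zero, map_zero, map_zero]⟩
  smul_mem' := by
    rintro c f ⟨⟨hf, hf'⟩, hf''⟩
    refine ⟨⟨by rw [smul_eq_mul, map_mul, hf, mul_zero], fun i => ?_⟩, fun i j => ?_⟩
    · rw [smul_eq_mul, pderiv_mul, map_add, map_mul, map_mul, hf, hf', mul_zero, mul_zero, add_zero]
    · rw [smul_eq_mul, pderiv_mul, map_add, pderiv_mul, pderiv_mul, map_add, map_add, map_add,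
        map_mul, map_mul, map_mul, map_mul, hf, hf', hf', hf'']
      ring

theorem pow3_le : ptIdeal P ^ 3 ≤ mult3 P := by
  have h1 : ∀ f ∈ ptIdeal P, eval P f = 0 := by
    intro f hf
    have := hf 1
    rwa [one_smul] at this
  have h2 : ptIdeal P * ptIdeal P ≤ mult2 P := by
    rw [Ideal.mul_le]
    intro r hr s hs
    refine ⟨by rw [map_mul, h1 r hr, zero_mul], fun i => ?_⟩
    rw [pderiv_mul, map_add, map_mul, map_mul, h1 r hr, h1 s hs, mul_zero, zero_mul, add_zero]
  rw [pow_succ, pow_succ, pow_one]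
  refine (Ideal.mul_mono_left h2).trans ?_
  rw [Ideal.mul_le]
  rintro r ⟨hr, hr'⟩ s hs
  have hs1 := h1 s hs
  refine ⟨⟨by rw [map_mul, hr, zero_mul], fun i => ?_⟩, fun i j => ?_⟩
  · rw [pderiv_mul, map_add, map_mul, map_mul, hr, hs1, mul_zero, zero_mul, add_zero]
  · rw [pderiv_mul, map_add, pderiv_mul, pderiv_mul, map_add, map_add, map_add,
      map_mul, map_mul, map_mul, map_mul, hr, hr', hr', hs1]
    ring

/-- TP-4a: multiplicity at least three in terms of second partial derivatives. -/
theorem mem_ptIdeal_pow_three {n d : ℕ} {P : Fin (n + 1) → ℂ} (hP : P ≠ 0)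
    {f : MvPolynomial (Fin (n + 1)) ℂ} (hf : f ∈ homogeneousSubmodule (Fin (n + 1)) ℂ d) :
    f ∈ ptIdeal P ^ 3 ↔ ∀ i j, eval P (pderiv i (pderiv j f)) = 0 ∧ eval P (pderiv i f) = 0 ∧
      eval P f = 0 := by
  constructor
  · intro h i j
    obtain ⟨⟨h1, h2⟩, h3⟩ := pow3_le P h
    exact ⟨h3 i j, h2 i, h1⟩
  · intro h
    obtain ⟨k, hk⟩ := Function.ne_iff.1 hP
    have hk : P k ≠ 0 := hk
    set c : Fin (n + 1) → ℂ := fun j => P j / P k with hc
    have hhom : f.IsHomogeneous d := hf
    have hzero : ∀ (g : MvPolynomial (Fin (n + 1)) ℂ) (e : ℕ), g.IsHomogeneous e → eval P g = 0 →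
        tS c k g = 0 := fun g e hg h0 => tS_zero P k hg h0
    have hT : tT c k f = 0 := by
      unfold tT
      rw [hzero f d hhom (h 0 0).2.2]
      have e1 : ∀ i, tS c k (pderiv i f) = 0 := fun i =>
        hzero _ _ (pderiv_isHomogeneous hhom i) (h i 0).2.1
      have e2 : ∀ i j, tS c k (pderiv i (pderiv j f)) = 0 := fun i j =>
        hzero _ _ (pderiv_isHomogeneous (pderiv_isHomogeneous hhom j) i) (h i j).1
      simp only [e1, e2, zero_mul, Finset.sum_const_zero, mul_zero, add_zero]
    have hmem := taylor_mem c k f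
    rw [hT, sub_zero] at hmem
    have hle : Ideal.span (Set.range (tL c k)) ≤ ptIdeal P := by
      rw [Ideal.span_le]
      rintro _ ⟨j, rfl⟩ t
      unfold tL
      rw [map_sub, map_mul, eval_X, eval_C, eval_X, Pi.smul_apply, Pi.smul_apply, smul_eq_mul,
        smul_eq_mul, hc]
      field_simp
      ring
    exact Ideal.pow_right_mono hle 3 hmem

end

end Pool.Agent.Helper93.TP
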