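import Pool.Agent.Helper93.TP.Defs2

/-!
# TP-2: the powers of the linear forms span the forms (helper16)
-/

set_option autoImplicit false

namespace Pool.Agent.Helper93.TP

open MvPolynomial Module

theorem lf_isHomogeneous {σ : Type*} [Fintype σ] (b : σ → ℂ) : (lf b).IsHomogeneous 1 := by
  unfold lf
  apply IsHomogeneous.sum
  intro i _
  rw [smul_eq_C_mul]
  have := (isHomogeneous_C σ (b i)).mul (isHomogeneous_X ℂ i)
  rwa [zero_add] at this

/-- the monomial with exponents `k` -/
noncomputable def monP {σ : Type*} [Fintype σ] (k : σ → ℕ) : MvPolynomial σ ℂ := ∏ i, X i ^ k i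

theorem monP_eq {σ : Type*} [Fintype σ] (k : σ → ℕ) :
    monP k = monomial (Finsupp.equivFunOnFinite.symm k) 1 := by
  classical
  rw [monomial_eq, C_1, one_mul, Finsupp.prod_fintype _ _ (fun i => pow_zero _)]
  rfl

theorem lf_pow_eq {σ : Type*} [Fintype σ] [DecidableEq σ] (b : σ → ℂ) (d : ℕ) :
    lf b ^ d = ∑ k ∈ Finset.piAntidiag Finset.univ d,
      (((Nat.multinomial Finset.univ k : ℕ) : ℂ) * ∏ i, b i ^ k i) • monP k := by
  unfold lf
  rw [Finset.sum_pow_eq_sum_piAntidiag]
  refine Finset.sum_congr rfl fun k _ => ?_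
  unfold monP
  have h : ∏ i, (b i • X i : MvPolynomial σ ℂ) ^ k i = (∏ i, b i ^ k i) • ∏ i, X i ^ k i := by
    simp only [smul_eq_C_mul, mul_pow, Finset.prod_mul_distrib]
    rw [map_prod]
    simp only [map_pow]
  rw [h, mul_smul]
  simp only [smul_eq_C_mul]
  rw [map_natCast]

theorem span_lf_pow (σ : Type*) [Fintype σ] (d : ℕ) :
    Submodule.span ℂ (Set.range fun b : σ → ℂ => lf b ^ d) = homogeneousSubmodule σ ℂ d := by
  classical
  apply le_antisymm
  · rw [Submodule.span_le]
    rintro _ ⟨b, rfl⟩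
    have := (lf_isHomogeneous b).pow d
    rw [one_mul] at this
    exact this
  · intro f hf
    by_contra hcon
    obtain ⟨l, hl1, hl2⟩ := Submodule.exists_le_ker_of_notMem hcon
    have h0 : ∀ b : σ → ℂ, l (lf b ^ d) = 0 := fun b =>
      hl2 (Submodule.subset_span ⟨b, rfl⟩)
    set Φ : MvPolynomial σ ℂ := ∑ k ∈ Finset.piAntidiag Finset.univ d,
      (((Nat.multinomial Finset.univ k : ℕ) : ℂ) * l (monP k)) • monP k with hΦ
    have hΦ0 : Φ = 0 := by
      apply MvPolynomial.funext
      intro b
      rw [map_zero, ← h0 b, lf_pow_eq, hΦ, map_sum, map_sum]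
      refine Finset.sum_congr rfl fun k _ => ?_
      rw [smul_eval, map_smul, smul_eq_mul]
      have : eval b (monP k) = ∏ i, b i ^ k i := by
        unfold monP
        rw [map_prod]
        simp only [map_pow, eval_X]
      rw [this]
      ring
    have hmon : ∀ k ∈ Finset.piAntidiag (Finset.univ : Finset σ) d, l (monP k) = 0 := by
      intro k hk
      have h1 : coeff (Finsupp.equivFunOnFinite.symm k) Φ = 0 := by rw [hΦ0, coeff_zero]
      rw [hΦ, coeff_sum, Finset.sum_eq_single k] at h1
      · rw [coeff_smul, monP_eq, coeff_monomial, if_pos rfl, smul_eq_mul, mul_one] at h1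
        rcases mul_eq_zero.1 h1 with h2 | h2
        · exact absurd (Nat.cast_eq_zero.1 h2) (Nat.multinomial_pos _ _).ne'
        · rw [monP_eq]
          exact h2
      · intro k' _ hne
        rw [coeff_smul, monP_eq, coeff_monomial, if_neg, smul_zero]
        intro h
        exact hne (Finsupp.equivFunOnFinite.symm.injective h)
      · intro h
        exact absurd hk h
    apply hl1
    rw [f.as_sum, map_sum]
    refine Finset.sum_eq_zero fun κ hκ => ?_
    have h2 : κ.degree = d := by
      have := (mem_homogeneousSubmodule d f).1 hf (mem_support_iff.1 hκ)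
      rw [Finsupp.degree_eq_weight_one]
      exact this
    have h3 : (⇑κ) ∈ Finset.piAntidiag (Finset.univ : Finset σ) d := by
      rw [Finset.mem_piAntidiag]
      refine ⟨?_, fun i _ => Finset.mem_univ i⟩
      rw [← h2, Finsupp.degree_eq_sum]
    have h4 := hmon _ h3
    rw [monP_eq] at h4
    have h5 : Finsupp.equivFunOnFinite.symm (⇑κ) = κ := Finsupp.equivFunOnFinite.symm_apply_apply κ
    rw [h5] at h4
    have h6 : monomial κ (coeff κ f) = (coeff κ f) • monomial κ (1 : ℂ) := by
      rw [smul_monomial, smul_eq_mul, mul_one]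
    rw [h6, map_smul, h4, smul_zero]

theorem polyMap_lf (σ : Type*) [Fintype σ] : PolyMap (fun b : σ → ℂ => lf b) := by
  classical
  have h := PolyMap.pi_linear (ι := σ) (∑ i, (LinearMap.proj (R := ℂ) (φ := fun _ : σ => ℂ) i).smulRight
    (X i : MvPolynomial σ ℂ))
  have e : (fun b : σ → ℂ => lf b) = fun b => (∑ i, (LinearMap.proj (R := ℂ)
      (φ := fun _ : σ => ℂ) i).smulRight (X i : MvPolynomial σ ℂ)) b := by
    funext b
    simp [lf]
  rw [e]
  exact h

theorem polyMap_mu (σ : Type*) [Fintype σ] (d : ℕ) (q : homogeneousSubmodule σ ℂ 2) :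
    PolyMap (fun b : σ → ℂ => mu σ d b q) :=
  ((polyMap_lf σ).pow (d - 2)).mul (PolyMap.const (q : MvPolynomial σ ℂ))

theorem polyMap_nu {σ : Type*} [Fintype σ] (ξ : σ → Fin 3 → ℂ) :
    PolyMap (fun b : σ → ℂ => nu b ξ) :=
  ((polyMap_lf σ).pow 2).map (LinearMap.pi fun y => LinearMap.mulRight ℂ (vec ξ y))

end Pool.Agent.Helper93.TP
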